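import Pool.Agent.P.MP_04e97d_an.U.Angle

namespace Pool.Agent.Results.MP_04e97d_an.UCNoBIP

open Pool.Agent.P.MP_04e97d_an

theorem result :
    ∃ (X : Type) (_ : NormedAddCommGroup X) (_ : NormedSpace ℂ X) (_ : CompleteSpace X)
      (E : Type) (_ : NormedAddCommGroup E) (_ : NormedSpace ℝ E) (_ : CompleteSpace E)
      (_ : Lattice E) (_ : IsOrderedAddMonoid E) (_ : IsOrderedModule ℝ E) (_ : HasSolidNorm E)
      (ι : E →ₗ[ℝ] X),
      IsComplexification E X ι ∧ IsUMD X ∧ UniformConvexSpace X ∧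
      Nonempty (X ≃L[ℂ] lp (fun _ : ℕ => ℂ) 2) ∧
      ∃ (A : X →L[ℂ] X) (T : ℝ → X →L[ℂ] X),
        IsSectorial A ∧ sInf (sectAngles A) = 0 ∧ GeneratesNeg A T ∧ (∀ t ≥ 0, ‖T t‖ ≤ 1) ∧
        (∀ t ≥ 0, ∀ a : E, 0 ≤ a → ∃ b : E, 0 ≤ b ∧ T t (ι a) = ι b) ∧
        ∃ s : ℝ, ¬ ImagPowerBounded A s :=
  ⟨U.XX, inferInstance, inferInstance, inferInstance, U.EE, inferInstance, inferInstance,
    inferInstance, inferInstance, inferInstance, inferInstance, inferInstance, U.iota,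
    U.complexification, U.umdX, inferInstance, ⟨U.eH⟩, U.AX, U.TX, U.sectorialX,
    by rw [U.angle_zero, csInf_Ioo Real.pi_pos], U.generatesX, U.TX_contr, U.positiveX, s0,
    U.not_bip⟩

end Pool.Agent.Results.MP_04e97d_an.UCNoBIP
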